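import Mathlib
import Pool.Prelude.Def_F_c31e40fa
import Pool.Agent.R240.Growth

set_option autoImplicit false

/-!
# The number of superattracting parameters in small discs

The theorems are proved in the starting files `Pool/Agent/R240/Count.lean` and
`Pool/Agent/R240/Growth.lean`; no starting result states them.
-/

open Filter Topology Set Metric MeasureTheory Complex N62a1eb23

namespace Pool.Agent.Results.MP_c6f924_an.GrowthOfCentres

open Pool.Agent.H713R2

/-- The superattracting parameters (centres of hyperbolic components) of period dividing `n` in the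
open disc of radius `r` about `c`: the parameters `a` such that `0` is periodic under
`z ↦ z ^ d + a` with a period dividing `n`. -/
def centres (d n : ℕ) (c : ℂ) (r : ℝ) : Set ℂ :=
  {a | a ∈ ball c r ∧ (fun z : ℂ => z ^ d + a)^[n] 0 = 0}

/-- The angles `t ∈ (0, 2π]` of the external rays landing at distance less than `r` from `c₀`. Up to
the factor `2π` its length is the harmonic measure (from infinity) of the disc of radius `r`. -/
def angles (ψ : ℂ → ℂ) (c₀ : ℂ) (r : ℝ) : Set ℝ :=
  {t | t ∈ Ioc 0 (2 * Real.pi) ∧ ∃ ζ ∈ ball c₀ r,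
    Tendsto (fun ρ : ℝ => ψ (ρ * exp (t * I))) (𝓝[>] 1) (𝓝 ζ)}

/-- The harmonic measure of the disc of radius `r`, up to the factor `2π`. -/
noncomputable def harm (ψ : ℂ → ℂ) (c₀ : ℂ) (r : ℝ) : ℝ := (volume (angles ψ c₀ r)).toReal

/-- `d = 2` is the case of the Mandelbrot set.

(A) There is an absolute constant `K` such that for all `d ≥ 2`, all `n`, all `c` and all `r > 0` the
disc of radius `2 r` about `c` contains at least `d ^ n ω / K - 1` superattracting parameters of
period dividing `n + 1`, where `ω` is the harmonic measure of the disc of radius `r` about `c` with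
respect to the Multibrot set `M_d`.

(B) Let `c₀` be a parameter of `M_d` at which `(1/n) log |(f^n)'(c₀)|`, `f z = z ^ d + c₀`, tends to a
number `χ > 0` (the Lyapunov exponent). Then for every `0 < β < χ` the number of the superattracting
parameters of period dividing `n` at distance less than `exp (- β n)` from `c₀` grows like
`d ^ (n (1 - β / χ))`: its logarithm, divided by `n`, tends to `(1 - β / χ) log d`. -/
theorem result :
    (∀ d n : ℕ, 2 ≤ d → 1 ≤ n → ∀ (c : ℂ) (r : ℝ), (centres d n c r).Finite) ∧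
    (∃ K : ℝ, 0 < K ∧ ∀ (d n : ℕ), 2 ≤ d →
      (∃ ψ : ℂ → ℂ, IsExteriorMap (multibrotSet d) ψ) ∧
      ∀ ψ : ℂ → ℂ, IsExteriorMap (multibrotSet d) ψ → ∀ (c : ℂ) (r : ℝ), 0 < r →
        (d : ℝ) ^ n * harm ψ c r ≤ K * ((centres d (n + 1) c (2 * r)).ncard + 1)) ∧
    ∀ (d : ℕ), 2 ≤ d → ∀ c₀ ∈ multibrotSet d, ∀ χ : ℝ, 0 < χ →
      Tendsto (fun n : ℕ => Real.log ‖deriv ((fun z : ℂ => z ^ d + c₀)^[n]) c₀‖ / n) atTop (𝓝 χ) →
      ∀ β : ℝ, 0 < β → β < χ →
        Tendsto (fun n : ℕ => Real.log (centres d n c₀ (Real.exp (-(β * n)))).ncard / n) atTop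
          (𝓝 ((1 - β / χ) * Real.log d)) := by
  refine ⟨?_, ⟨Pool.Agent.R240.KK, Pool.Agent.R240.KK_pos, ?_⟩, ?_⟩
  · intro d n hd hn c r
    obtain ⟨N, rfl⟩ : ∃ N, n = N + 1 := ⟨n - 1, by omega⟩
    exact Pool.Agent.R240.Cen_finite hd N c r
  · intro d n hd
    obtain ⟨β, hβ⟩ := exists_beta (d := d) hd
    refine ⟨⟨_, exteriorMap_of_beta hβ⟩, ?_⟩
    intro ψ hψ c r hr
    have h := Pool.Agent.R240.count_lower hd hψ n c (r := 2 * r) (by linarith)
    rw [show 2 * r / 2 = r by ring] at h
    exact h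
  · intro d hd c₀ hc₀ χ hχ h β hβ hβχ
    exact Pool.Agent.R240.growth hd ⟨hχ, hc₀, h⟩ hβ hβχ

end Pool.Agent.Results.MP_c6f924_an.GrowthOfCentres
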