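import Mathlib
import Pool.Prelude.Def_F_c31e40fa
import Pool.Agent.N601.LL.Main

set_option autoImplicit false

/-!
# The local law for the centres of the hyperbolic components

The number of superattracting parameters of period dividing `n` in a disc is the harmonic measure of
the disc times `d ^ (n - 1)`, up to a slight change of the radius and an error of order `n`, for every
disc and every `n`.
-/

open Filter Topology Set Metric MeasureTheory Complex N62a1eb23

namespace Pool.Agent.Results.MP_c6f924_an.LocalLawOfCentres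

open Pool.Agent.H713R2

/-- The superattracting parameters (centres of hyperbolic components) of period dividing `n` in the
open disc of radius `r` about `c`: the parameters `a` such that `0` is periodic under
`z ↦ z ^ d + a` with a period dividing `n`. -/
def centres (d n : ℕ) (c : ℂ) (r : ℝ) : Set ℂ :=
  {a | a ∈ ball c r ∧ (fun z : ℂ => z ^ d + a)^[n] 0 = 0}

/-- The angles `t ∈ (0, 2π]` of the external rays landing at distance less than `r` from `c`. -/
def angles (ψ : ℂ → ℂ) (c : ℂ) (r : ℝ) : Set ℝ :=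
  {t | t ∈ Ioc 0 (2 * Real.pi) ∧ ∃ ζ ∈ ball c r,
    Tendsto (fun ρ : ℝ => ψ (ρ * exp (t * I))) (𝓝[>] 1) (𝓝 ζ)}

/-- The harmonic measure (from infinity) of the disc of radius `r`, of total mass one. -/
noncomputable def harm (ψ : ℂ → ℂ) (c : ℂ) (r : ℝ) : ℝ :=
  (volume (angles ψ c r)).toReal / (2 * Real.pi)

/-- `d = 2` is the case of the Mandelbrot set. There is an absolute constant `K` such that for all
`d ≥ 2`, all `n ≥ 1`, all `c`, all `r > 0` and all `0 < ε ≤ 1` the number of the superattracting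
parameters of period dividing `n` in the disc `D(c, r)` is at most
`d ^ (n - 1) ω(D(c, (1 + ε) r)) + K n log d / ε`, and
`d ^ (n - 1) ω(D(c, r))` is at most the number in `D(c, (1 + ε) r)` plus `K n log d / ε`, where `ω` is
the harmonic measure of the Multibrot set `M_d`. -/
theorem result :
    (∀ d n : ℕ, 2 ≤ d → 1 ≤ n → ∀ (c : ℂ) (r : ℝ), (centres d n c r).Finite) ∧
    (∀ d : ℕ, 2 ≤ d → ∃ ψ : ℂ → ℂ, IsExteriorMap (multibrotSet d) ψ) ∧
    ∃ K : ℝ, 0 < K ∧ ∀ (d n : ℕ), 2 ≤ d → 1 ≤ n →
      ∀ ψ : ℂ → ℂ, IsExteriorMap (multibrotSet d) ψ → ∀ (c : ℂ) (r ε : ℝ), 0 < r → 0 < ε → ε ≤ 1 →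
        ((centres d n c r).ncard : ℝ) ≤
          (d : ℝ) ^ (n - 1) * harm ψ c ((1 + ε) * r) + K * n * Real.log d / ε ∧
        (d : ℝ) ^ (n - 1) * harm ψ c r ≤
          (centres d n c ((1 + ε) * r)).ncard + K * n * Real.log d / ε := by
  refine ⟨?_, ?_, Pool.Agent.N601.LL.KL, Pool.Agent.N601.LL.KL_pos, ?_⟩
  · intro d n hd hn c r
    obtain ⟨N, rfl⟩ : ∃ N, n = N + 1 := ⟨n - 1, by omega⟩
    exact Pool.Agent.R240.Cen_finite hd N c r
  · intro d hd
    obtain ⟨β, hβ⟩ := exists_beta (d := d) hd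
    exact ⟨_, exteriorMap_of_beta hβ⟩
  · intro d n hd hn ψ hψ c r ε hr hε hε1
    obtain ⟨N, rfl⟩ : ∃ N, n = N + 1 := ⟨n - 1, by omega⟩
    rw [Nat.add_sub_cancel]
    exact Pool.Agent.N601.LL.law hd hψ N c hr hε hε1

end Pool.Agent.Results.MP_c6f924_an.LocalLawOfCentres
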