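import Mathlib
import Pool.Agent.H505R3.Asym8

set_option autoImplicit false

/-!
# Values of `n ^ 2 + 1` with an even number of prime factors, all of them large

The identity `(m ^ 2 + 1) ((2 m ^ 2) ^ 2 + 1) = (2 m ^ 3 + m) ^ 2 + 1` and a sieve (of Brun and Hooley)
for `m ^ 2 + 1`, `2 m ^ 2 - 2 m + 1`, `2 m ^ 2 + 2 m + 1`. The count is proved in the starting file
`Pool/Agent/H505R3/Asym8.lean`, which no result uses.
-/

open Finset

namespace Pool.Agent.Results.MP_7169d5_nt.EvenRoughValues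

/-- the number of the prime factors of `n` that belong to `S`, counted with multiplicity -/
noncomputable def count (S : Set ℕ) (n : ℕ) : ℕ := by
  classical
  exact n.primeFactorsList.countP (fun p => decide (p ∈ S))

theorem count_mul (S : Set ℕ) {a b : ℕ} (ha : a ≠ 0) (hb : b ≠ 0) :
    count S (a * b) = count S a + count S b := by
  classical
  unfold count
  rw [(Nat.perm_primeFactorsList_mul ha hb).countP_eq, List.countP_append]

theorem pow_length (w : ℝ) (hw : 1 ≤ w) (l : List ℕ) (hl : ∀ p ∈ l, w ≤ (p : ℝ)) :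
    w ^ l.length ≤ ((l.prod : ℕ) : ℝ) := by
  induction l with
  | nil => simp
  | cons p l ih =>
    rw [List.length_cons, List.prod_cons, pow_succ', Nat.cast_mul]
    exact mul_le_mul (hl p List.mem_cons_self) (ih fun q hq => hl q (List.mem_cons_of_mem _ hq))
      (by positivity) (by positivity)

theorem length_le {X n : ℕ} (hX : 100 ≤ X) (hn : n ≤ X)
    (h : ∀ p : ℕ, p.Prime → p ∣ n ^ 2 + 1 → (X : ℝ) ^ ((1 : ℝ) / 8000) < p) :
    (n ^ 2 + 1).primeFactorsList.length ≤ 16000 := by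
  have hX1 : (100 : ℝ) ≤ X := by exact_mod_cast hX
  have hX0 : (0 : ℝ) < X := by linarith
  by_contra hcon
  push Not at hcon
  obtain ⟨L, hL⟩ : ∃ L, L = (n ^ 2 + 1).primeFactorsList.length := ⟨_, rfl⟩
  obtain ⟨w, hw⟩ : ∃ w : ℝ, w = (X : ℝ) ^ ((1 : ℝ) / 8000) := ⟨_, rfl⟩
  have hw1 : 1 ≤ w := by rw [hw]; exact Real.one_le_rpow (by linarith) (by norm_num)
  have h1 := pow_length w hw1 (n ^ 2 + 1).primeFactorsList (fun p hp => by
    rw [hw]
    exact (h p (Nat.prime_of_mem_primeFactorsList hp) (Nat.dvd_of_mem_primeFactorsList hp)).le)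
  rw [Nat.prod_primeFactorsList (by positivity), ← hL] at h1
  rw [← hL] at hcon
  have h2 : w ^ 16001 ≤ w ^ L := pow_le_pow_right₀ hw1 hcon
  have h3 : w ^ 16001 = (X : ℝ) ^ 2 * w := by
    have e1 : w ^ 16000 = (X : ℝ) ^ 2 := by
      rw [hw, ← Real.rpow_natCast, ← Real.rpow_mul hX0.le, ← Real.rpow_natCast]
      norm_num
    rw [pow_succ, e1]
  have h4 : 1 + 1 / 2000 ≤ w := by
    have hlog : 4 ≤ Real.log X := by
      rw [Real.le_log_iff_exp_le hX0]
      have h5 : Real.exp 4 = Real.exp 1 ^ 4 := by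
        rw [← Real.exp_nat_mul]; norm_num
      have h6 := Real.exp_one_lt_d9
      have h7 : Real.exp 1 ^ 4 ≤ 3 ^ 4 := by
        apply pow_le_pow_left₀ (Real.exp_pos 1).le
        linarith
      rw [h5]
      linarith
    rw [hw, Real.rpow_def_of_pos hX0]
    have h5 := Real.add_one_le_exp (Real.log X * (1 / 8000))
    linarith
  have h5 : ((n ^ 2 + 1 : ℕ) : ℝ) ≤ (X : ℝ) ^ 2 + 1 := by
    have h6 : n ^ 2 ≤ X ^ 2 := Nat.pow_le_pow_left hn 2
    have h7 : ((n ^ 2 : ℕ) : ℝ) ≤ ((X ^ 2 : ℕ) : ℝ) := by exact_mod_cast h6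
    push_cast at h7 ⊢
    linarith
  have h6 : (X : ℝ) ^ 2 * w ≤ (X : ℝ) ^ 2 + 1 := by
    rw [← h3]; exact h2.trans (h1.trans h5)
  have h7 : (10000 : ℝ) ≤ (X : ℝ) ^ 2 := by nlinarith
  have h8 : (X : ℝ) ^ 2 * (1 + 1 / 2000) ≤ (X : ℝ) ^ 2 * w :=
    mul_le_mul_of_nonneg_left h4 (by positivity)
  linarith

/-- **Even parity for the rough values of `n ^ 2 + 1`.** There is `X₀` such that for all `X ≥ X₀`:

(1) for every set `S` of primes there are at least `X ^ (1/3) / (log X) ^ 139` multiples `n ≤ X` of `8`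
such that `n ^ 2 + 1` is a product of at most `16000` primes, all larger than `X ^ (1/8000)`, an even
number of which are in `S`;

(2) the same holds for every property `E` of positive integers (in place of the parity) such that the
product of two positive integers without this property has it. -/
theorem result : ∃ X₀ : ℕ, ∀ X : ℕ, X₀ ≤ X →
    (∀ S : Set ℕ, (X : ℝ) ^ ((1 : ℝ) / 3) / Real.log X ^ 139 ≤
      (({n : ℕ | n ≤ X ∧ 0 < n ∧ 8 ∣ n ∧ (n ^ 2 + 1).primeFactorsList.length ≤ 16000 ∧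
        (∀ p : ℕ, p.Prime → p ∣ n ^ 2 + 1 → (X : ℝ) ^ ((1 : ℝ) / 8000) < p) ∧
        Even (count S (n ^ 2 + 1))} : Set ℕ).ncard : ℝ)) ∧
    ∀ E : ℕ → Prop, (∀ a b : ℕ, a ≠ 0 → b ≠ 0 → ¬ E a → ¬ E b → E (a * b)) →
      (X : ℝ) ^ ((1 : ℝ) / 3) / Real.log X ^ 139 ≤
        (({n : ℕ | n ≤ X ∧ 0 < n ∧ 8 ∣ n ∧ (n ^ 2 + 1).primeFactorsList.length ≤ 16000 ∧
          (∀ p : ℕ, p.Prime → p ∣ n ^ 2 + 1 → (X : ℝ) ^ ((1 : ℝ) / 8000) < p) ∧
          E (n ^ 2 + 1)} : Set ℕ).ncard : ℝ) := by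
  obtain ⟨X₀, h⟩ := Pool.Agent.H505R3.main8
  refine ⟨max X₀ 100, fun X hX => ?_⟩
  have hX0 : X₀ ≤ X := le_trans (le_max_left _ _) hX
  have hX2 : 100 ≤ X := le_trans (le_max_right _ _) hX
  have key : ∀ E : ℕ → Prop, (∀ a b : ℕ, a ≠ 0 → b ≠ 0 → ¬ E a → ¬ E b → E (a * b)) →
      (X : ℝ) ^ ((1 : ℝ) / 3) / Real.log X ^ 139 ≤
        (({n : ℕ | n ≤ X ∧ 0 < n ∧ 8 ∣ n ∧ (n ^ 2 + 1).primeFactorsList.length ≤ 16000 ∧
          (∀ p : ℕ, p.Prime → p ∣ n ^ 2 + 1 → (X : ℝ) ^ ((1 : ℝ) / 8000) < p) ∧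
          E (n ^ 2 + 1)} : Set ℕ).ncard : ℝ) := by
    intro E hE
    refine (h E hE X hX0).trans (le_of_eq ?_)
    congr 2
    ext n
    constructor
    · rintro ⟨h1, h2, h3, h4, h5⟩
      exact ⟨h1, h2, h3, length_le hX2 h1 h4, h4, h5⟩
    · rintro ⟨h1, h2, h3, -, h4, h5⟩
      exact ⟨h1, h2, h3, h4, h5⟩
  refine ⟨fun S => key (fun n => Even (count S n)) ?_, key⟩
  intro a b ha hb h1 h2
  rw [count_mul S ha hb]
  rw [Nat.not_even_iff_odd] at h1 h2
  exact h1.add_odd h2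

end Pool.Agent.Results.MP_7169d5_nt.EvenRoughValues
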