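import Pool.Agent.N601.LP4.F

/-!
# Turán's `(3,4)`-problem in the norm `ℓ_p` as `p → ∞`

Turán's problem maximises the sum of the codegrees of the pairs of vertices over all 3-graphs
without a complete subgraph `K_4^3`. Here the sum of the `p`-th powers of the codegrees is
maximised; `density p` is the extremal constant. For `3/2 ≤ p ≤ 29/10` it is attained by Turán's
construction with three equal parts (start result `CodegreePowers`). It is proved here that
`p * density p → 2 / e` as `p → ∞`, with an explicit error term, and that for large `p` the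
3-graphs `oneOf n m` with `m ≈ n / (p + 2)` are asymptotically optimal: a set `B` of `m` vertices,
and the triples with exactly one vertex in `B`; this is Turán's construction with one part empty.
So parts of very different sizes are needed: for `p ≥ 5` the constant
`(2/3)^(p+1) + (1/3)^(p+1)` of three equal parts is smaller, and it is exponentially small.

Proof of the upper bound. Let `G` be the graph of the pairs of codegree more than `(1 - s) n`, for
`s = (4/3) log p / p`. Of two pairs in `G` one misses a vertex of the other; counting gives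
`|G_S| ≤ 4 s n Δ` for vertex sets `S` with degrees at most `Δ` in `G_S`. So there are only few
pairs of `G` between vertices of small degree and at most `4 s n / τ` vertices of degree more than
`τ n`. If `a` has the neighbours `b ∈ B_a` in `G` of large degree, then nearly all triples `a b b'`
with `b, b' ∈ B_a` are missing, hence the codegree of `a, b` is at most `n - |B_a|` up to a small
error, and `x (1 - x)^p ≤ 1 / (e p)`.
-/

set_option autoImplicit false
open Finset Filter Topology
open scoped Classical

namespace Pool.Agent.Results.MP_f1799f_co.LargeExponents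

/-- No four vertices of the 3-graph `H` span all four triples. -/
def CliqueFree {n : ℕ} (H : Finset (Finset (Fin n))) : Prop :=
  ∀ Q : Finset (Fin n), Q.card = 4 → ∃ e ⊆ Q, e.card = 3 ∧ e ∉ H

/-- The number of vertices `z` such that `{x, y, z}` is an edge of `H`: the codegree of the pair
`x`, `y`.  It is `0` for `x = y`, since the edges of `H` have three elements. -/
noncomputable def codegree {n : ℕ} (H : Finset (Finset (Fin n))) (x y : Fin n) : ℕ :=
  (univ.filter fun z => {x, y, z} ∈ H).card

/-- The sum of the `p`-th powers of the codegrees of all ordered pairs. -/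
noncomputable def powerSum {n : ℕ} (p : ℝ) (H : Finset (Finset (Fin n))) : ℝ :=
  ∑ x : Fin n, ∑ y : Fin n, (codegree H x y : ℝ) ^ p

/-- The triples with exactly one vertex among the first `m` vertices. -/
noncomputable def oneOf (n m : ℕ) : Finset (Finset (Fin n)) :=
  univ.filter fun e => e.card = 3 ∧ (e.filter fun x => x.val < m).card = 1

/-- The extremal constant: the supremum of `powerSum p H / n ^ (p + 2)` over all `K_4^3`-free
3-graphs `H` with `n ≥ 1` vertices. -/
noncomputable def density (p : ℝ) : ℝ :=
  sSup {r : ℝ | ∃ (n : ℕ) (H : Finset (Finset (Fin n))), 0 < n ∧ (∀ e ∈ H, e.card = 3) ∧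
    CliqueFree H ∧ r = powerSum p H / (n : ℝ) ^ (p + 2)}

/-- **The `ℓ_p`-version of Turán's problem for `K_4^3` for large `p`.** -/
theorem result :
    (∀ p : ℝ, 3 ≤ p →
      (∀ (n : ℕ) (H : Finset (Finset (Fin n))), (∀ e ∈ H, e.card = 3) → CliqueFree H →
        powerSum p H ≤ (2 / (Real.exp 1 * p) +
          32 * Real.log p ^ (5 / 3 : ℝ) * p ^ (-(4 / 3) : ℝ)) * (n : ℝ) ^ (p + 2)) ∧
      ∀ c : ℝ, c < 2 / (Real.exp 1 * (p + 2)) → ∃ N : ℕ, ∀ n : ℕ, N ≤ n →
        c * (n : ℝ) ^ (p + 2) < powerSum p (oneOf n ⌊(n : ℝ) / (p + 2)⌋₊)) ∧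
    (∀ n m : ℕ, (∀ e ∈ oneOf n m, e.card = 3) ∧ CliqueFree (oneOf n m)) ∧
    Tendsto (fun p : ℝ => p * density p) atTop (𝓝 (2 / Real.exp 1)) ∧
    ∀ p : ℝ, 5 ≤ p →
      (2 / 3 : ℝ) ^ (p + 1) + (1 / 3 : ℝ) ^ (p + 1) < 2 / (Real.exp 1 * (p + 2)) :=
  ⟨fun _ hp => ⟨fun _ _ h3 hF => N601.LP4.upper hp h3 hF,
      fun _ hc => N601.LP4.lower (by linarith) hc⟩,
    fun n m => ⟨N601.LP4.oneOf_card n m, N601.LP4.oneOf_free n m⟩,
    N601.LP4.density_tendsto, fun _ hp => N601.LP4.balanced_lt hp⟩

end Pool.Agent.Results.MP_f1799f_co.LargeExponents
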