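import Pool.Agent.H383.FullC

/-!
# The Gauss circle problem at integer radii: the error term is negative for most radii

For integers `n` let `E(n) = #{p ∈ ℤ² : |p| ≤ n} - π n²`. The proportion of the integers `n` with
`E(n) < 0` exists, also in all short windows `(k, k + N]` with `N ≥ k^(1/2 + ε)`, and it is at least
`5/6` (and less than `1`). So the circle problem at integer radii has a strong bias, although the error
term has mean value of order `R^(1/2)` and takes both signs with positive frequency; for real radii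
the limit law has mean `0`. The theorem is `Pool.Agent.H383.Circ.radii2` of the library.
-/

set_option autoImplicit false

namespace Pool.Agent.Results.MP_fb29e9_nt.NegativeBias

open Classical in
/-- **Bias of the circle problem at integer radii.** There is `d ∈ [5/6, 1)` such that for all
`ε, η > 0`, all large `N` and all `k` with `k^(1/2 + ε) ≤ N`, the proportion of the integers
`n ∈ (k, k + N]` for which the closed disc of radius `n` around the origin has fewer than `π n²`
lattice points differs from `d` by at most `η`. -/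
theorem result : ∃ d : ℝ, 5 / 6 ≤ d ∧ d < 1 ∧ ∀ ε : ℝ, 0 < ε → ∀ η : ℝ, 0 < η →
    ∃ N₀ : ℕ, ∀ N : ℕ, N₀ ≤ N → ∀ k : ℕ, (k : ℝ) ^ (1 / 2 + ε) ≤ N →
      |(((Finset.Ioc k (k + N)).filter (fun n : ℕ =>
        (Nat.card {p : ℤ × ℤ // (p.1 : ℝ) ^ 2 + (p.2 : ℝ) ^ 2 ≤ (n : ℝ) ^ 2} : ℝ) <
          Real.pi * (n : ℝ) ^ 2)).card : ℝ) / N - d| ≤ η := by
  obtain ⟨d, h1, h2, h⟩ := Pool.Agent.H383.Circ.radii2
  refine ⟨d, h1, h2, fun ε hε η hη => ?_⟩
  obtain ⟨N₀, hN₀⟩ := h ε hε η hη
  refine ⟨N₀, fun N hN k hk => ?_⟩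
  have := hN₀ N hN k hk
  have e : ∀ n : ℕ, (Pool.Agent.H383.Circ.Cx ((n : ℝ) ^ 2) < 0) ↔
      (Nat.card {p : ℤ × ℤ // (p.1 : ℝ) ^ 2 + (p.2 : ℝ) ^ 2 ≤ (n : ℝ) ^ 2} : ℝ) <
          Real.pi * (n : ℝ) ^ 2 := by
    intro n
    unfold Pool.Agent.H383.Circ.Cx
    exact sub_neg
  simpa only [e] using this

end Pool.Agent.Results.MP_fb29e9_nt.NegativeBias
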